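import Pool.Agent.MP_ad39f2_ag.H14.Coord

open MvPolynomial IsLocalRing

namespace Pool.Agent.MP_ad39f2_ag.H14

/-- The substitution `u ↦ u`, `v ↦ u (v + a)`. -/
noncomputable def sigma (a : ℂ) : P2 →ₐ[ℂ] P2 := aeval ![X 0, X 0 * (X 1 + C a)]

@[simp] lemma sigma_X0 (a : ℂ) : sigma a (X 0) = X 0 := by simp [sigma]

@[simp] lemma sigma_X1 (a : ℂ) : sigma a (X 1) = X 0 * (X 1 + C a) := by simp [sigma]

@[simp] lemma sigma_C (a b : ℂ) : sigma a (C b) = C b := by simp [sigma]

lemma sigma_eq (a : ℂ) (f : P2) : ∃ h : P2, sigma a f = C (constantCoeff f) + X 0 * h := by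
  induction f using MvPolynomial.induction_on with
  | C b => exact ⟨0, by simp⟩
  | add f g hf hg =>
    obtain ⟨h, hh⟩ := hf
    obtain ⟨h', hh'⟩ := hg
    exact ⟨h + h', by rw [map_add, hh, hh', map_add, map_add]; ring⟩
  | mul_X f i _ =>
    fin_cases i
    · exact ⟨sigma a f, by simp [mul_comm]⟩
    · exact ⟨sigma a f * (X 1 + C a), by simp; ring⟩

lemma cc_sigma (a : ℂ) (f : P2) : constantCoeff (sigma a f) = constantCoeff f := by
  obtain ⟨h, hh⟩ := sigma_eq a f
  simp [hh]

lemma exists_sigma_eq (a : ℂ) (g : P2) : ∃ (N : ℕ) (G : P2), sigma a G = X 0 ^ N * g := by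
  induction g using MvPolynomial.induction_on with
  | C b => exact ⟨0, C b, by simp⟩
  | add f g hf hg =>
    obtain ⟨N, G, h⟩ := hf
    obtain ⟨N', G', h'⟩ := hg
    exact ⟨N + N', X 0 ^ N' * G + X 0 ^ N * G', by
      simp only [map_add, map_mul, map_pow, sigma_X0, h, h']; ring⟩
  | mul_X f i hf =>
    obtain ⟨N, G, h⟩ := hf
    fin_cases i
    · exact ⟨N, G * X 0, by simp [h, mul_assoc]⟩
    · exact ⟨N + 1, G * (X 1 - C a * X 0), by simp [h]; ring⟩

namespace Coord

variable (c : Coord)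

lemma u_ne_zero : c.φ (X 0) ≠ 0 := c.map_ne_zero (X_ne_zero _)

/-- The map with `u ↦ u`, `v ↦ v / u - a`. -/
noncomputable def blowMap (a : ℂ) : P2 →ₐ[ℂ] K :=
  aeval ![c.φ (X 0), c.φ (X 1 - C a * X 0) / c.φ (X 0)]

lemma blowMap_X0 (a : ℂ) : c.blowMap a (X 0) = c.φ (X 0) := by simp [blowMap]

lemma blowMap_X1 (a : ℂ) : c.blowMap a (X 1) = c.φ (X 1 - C a * X 0) / c.φ (X 0) := by
  simp [blowMap]

lemma map_C (b : ℂ) : c.φ (C b) = algebraMap ℂ K b := c.φ.commutes b

lemma blowMap_C (a b : ℂ) : c.blowMap a (C b) = algebraMap ℂ K b := (c.blowMap a).commutes b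

lemma blowMap_sigma (a : ℂ) (f : P2) : c.blowMap a (sigma a f) = c.φ f := by
  have : (c.blowMap a).comp (sigma a) = c.φ := by
    apply MvPolynomial.algHom_ext
    intro i
    fin_cases i
    · simp [blowMap_X0]
    · have := c.u_ne_zero
      simp only [Fin.mk_one, AlgHom.comp_apply, sigma_X1, map_mul, map_add, blowMap_X0,
        blowMap_X1, blowMap_C, map_sub, map_C]
      field_simp
      ring
  exact congr($this f)

/-- Coordinates at the point `v / u = a` of the exceptional curve. -/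
noncomputable def blow (a : ℂ) : Coord where
  φ := c.blowMap a
  inj := by
    rw [injective_iff_map_eq_zero]
    intro g hg
    obtain ⟨N, G, h⟩ := exists_sigma_eq a g
    have h1 : c.φ G = 0 := by rw [← c.blowMap_sigma a, h, map_mul, hg, mul_zero]
    have h2 : G = 0 := c.inj (by rw [h1, map_zero])
    rw [h2, map_zero] at h
    exact (mul_eq_zero.1 h.symm).resolve_left (pow_ne_zero _ (X_ne_zero _))

lemma blow_X0 (a : ℂ) : (c.blow a).φ (X 0) = c.φ (X 0) := c.blowMap_X0 a

lemma blow_X1 (a : ℂ) : (c.blow a).φ (X 1) = c.φ (X 1 - C a * X 0) / c.φ (X 0) :=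
  c.blowMap_X1 a

lemma blow_sigma (a : ℂ) (f : P2) : (c.blow a).φ (sigma a f) = c.φ f := c.blowMap_sigma a f

lemma chart_le (a : ℂ) : chart c.O (c.φ (X 0)) ≤ (c.blow a).O.toSubring := by
  refine Subring.closure_le.2 ?_
  rintro z (⟨f, g, hg, rfl⟩ | ⟨y, hy, rfl⟩)
  · exact ⟨sigma a f, sigma a g, by rwa [cc_sigma], by rw [blow_sigma, blow_sigma]⟩
  · obtain ⟨f, g, hf, hg, rfl⟩ := c.mem_maxSet.1 hy
    obtain ⟨h, hh⟩ := sigma_eq a f
    rw [hf, map_zero, zero_add] at hh
    refine ⟨h, sigma a g, by rwa [cc_sigma], ?_⟩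
    have e1 := c.u_ne_zero
    have e2 := c.map_ne_zero_of_cc hg
    rw [blow_sigma, ← c.blow_sigma a f, hh, map_mul, blow_X0]
    field_simp

lemma map_mem_chart (a : ℂ) (f : P2) : (c.blow a).φ f ∈ chart c.O (c.φ (X 0)) := by
  induction f using MvPolynomial.induction_on with
  | C b =>
    rw [map_C, ← c.map_C]
    exact le_chart _ _ (c.map_mem_O _)
  | add f g hf hg =>
    rw [map_add]
    exact add_mem hf hg
  | mul_X f i hf =>
    rw [map_mul]
    refine mul_mem hf ?_
    fin_cases i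
    · change (c.blow a).φ (X 0) ∈ _
      rw [blow_X0]
      exact le_chart _ _ (c.map_mem_O _)
    · change (c.blow a).φ (X 1) ∈ _
      rw [blow_X1]
      exact div_mem_chart _ (c.map_mem_maxSet (by simp))

theorem isQT_blow (a : ℂ) : IsQT c.O (c.blow a).O := by
  let ι : chart c.O (c.φ (X 0)) →+* (c.blow a).O.toSubring := Subring.inclusion (c.chart_le a)
  let n : Ideal (chart c.O (c.φ (X 0))) := (maximalIdeal _).comap ι
  have hmem : ∀ x : chart c.O (c.φ (X 0)), x ∈ n ↔ (x : K) ∈ maxSet (c.blow a).O := fun x =>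
    (coe_mem_maxSet (a := ι x)).symm
  have hn : n.IsMaximal := by
    have hker : n = RingHom.ker ((residue _).comp ι) := by
      ext x
      simp [n, RingHom.mem_ker, residue_eq_zero_iff]
    rw [hker]
    apply RingHom.ker_isMaximal_of_surjective
    intro y
    obtain ⟨⟨_, f, g, hg, rfl⟩, rfl⟩ := residue_surjective y
    refine ⟨⟨_, c.map_mem_chart a (C (constantCoeff f / constantCoeff g))⟩, ?_⟩
    rw [RingHom.comp_apply, ← sub_eq_zero, ← map_sub, residue_eq_zero_iff, ← coe_mem_maxSet]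
    refine (c.blow a).mem_maxSet.2 ⟨C (constantCoeff f / constantCoeff g) * g - f, g, ?_, hg, ?_⟩
    · simp [hg]
    · have e := (c.blow a).map_ne_zero_of_cc hg
      change (c.blow a).φ (C _) - (c.blow a).φ f / (c.blow a).φ g = _
      rw [map_sub, map_mul]
      field_simp
  refine ⟨c.φ (X 0), c.map_mem_maxSet (by simp), c.u_ne_zero, n, hn, ?_, ?_⟩
  · intro x hx
    obtain ⟨f, g, hf, hg, h⟩ := c.mem_maxSet.1 hx
    exact (hmem x).2 ((c.blow a).mem_maxSet.2 ⟨sigma a f, sigma a g, by rwa [cc_sigma],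
      by rwa [cc_sigma], by rw [blow_sigma, blow_sigma, h]⟩)
  · apply LocalSubring.toSubring_injective
    ext z
    rw [mem_ofPrime]
    constructor
    · rintro ⟨f, g, hg, rfl⟩
      refine ⟨⟨_, c.map_mem_chart a f⟩, ⟨_, c.map_mem_chart a g⟩, ?_, rfl⟩
      rw [hmem]
      intro h
      have := ((c.blow a).div_mem_maxSet_iff (f := g) (g := 1) (by simp)).1 (by simpa using h)
      exact hg this
    · rintro ⟨x, y, hy, rfl⟩
      rw [hmem] at hy
      rw [div_eq_mul_inv]
      exact mul_mem (c.chart_le a x.2) (inv_mem_of_notMem_maxSet (c.chart_le a y.2) hy).2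

/-- The chain of points infinitely near to the origin that lie on the line `v = a u`. -/
noncomputable def chain (a : ℂ) : ℕ → Coord
  | 0 => c
  | 1 => c.blow a
  | (k + 2) => (chain a (k + 1)).blow 0

lemma chain_succ (a : ℂ) (k : ℕ) :
    c.chain a (k + 1) = (c.chain a k).blow (if k = 0 then a else 0) := by
  cases k with
  | zero => rfl
  | succ k => rfl

lemma isQT_chain (a : ℂ) (k : ℕ) : IsQT (c.chain a k).O (c.chain a (k + 1)).O := by
  rw [chain_succ]
  exact isQT_blow _ _

lemma prec_chain (a : ℂ) {k l : ℕ} (h : k ≤ l) : Prec (c.chain a k).O (c.chain a l).O := by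
  induction h with
  | refl => exact Relation.ReflTransGen.refl
  | step _ ih => exact Relation.ReflTransGen.tail ih (c.isQT_chain a _)

/-- A blown-up ring is not contained in the original one. -/
lemma not_blow_le (a : ℂ) : ¬ (c.blow a).O.toSubring ≤ c.O.toSubring := by
  intro h
  apply c.div_notMem
  have h1 := h ((c.blow a).map_mem_O (X 1 + C a))
  have e := c.u_ne_zero
  rw [map_add, blow_X1, map_C, map_sub, map_mul, map_C] at h1
  convert h1 using 1
  field_simp
  ring

lemma le_of_chain_le (a : ℂ) {k l : ℕ}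
    (h : (c.chain a k).O.toSubring ≤ (c.chain a l).O.toSubring) : k ≤ l := by
  by_contra hkl
  have h1 : l + 1 ≤ k := by omega
  have h2 := (c.prec_chain a h1).dom.1.trans h
  rw [chain_succ] at h2
  exact not_blow_le _ _ h2

/-- Different points of the exceptional curve are not dominated by one local ring. -/
lemma eq_of_dom_blow {a b : ℂ} {T : LocalSubring K} (ha : Dom (c.blow a).O T)
    (hb : Dom (c.blow b).O T) : a = b := by
  by_contra hab
  have h1 := ha.2 ((c.blow a).map_mem_maxSet (f := X 1) (by simp))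
  have h2 := hb.2 ((c.blow b).map_mem_maxSet (f := X 1) (by simp))
  have h3 := maxSet_mul (maxSet_sub h1 h2) (ha.1 ((c.blow a).map_mem_O (C (b - a)⁻¹)))
  apply one_notMem_maxSet T
  convert h3 using 1
  have e := c.u_ne_zero
  have e2 : algebraMap ℂ K b - algebraMap ℂ K a ≠ 0 := by
    rw [← map_sub, map_ne_zero_iff _ (algebraMap ℂ K).injective]
    exact sub_ne_zero.2 (Ne.symm hab)
  simp only [blow_X1, map_C, map_sub, map_mul, map_inv₀]
  field_simp
  ring

/-- A point two or more steps down a chain is not proximate. -/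
lemma not_subset_ordRing (a : ℂ) {k l : ℕ} (h : k + 2 ≤ l) :
    ¬ ((c.chain a l).O.toSubring : Set K) ⊆ ordRing (c.chain a k).O := by
  intro hsub
  apply (c.chain a k).notMem_ordRing (if k = 0 then a else 0)
  apply hsub
  apply (c.prec_chain a h).dom.1
  have h1 := (c.chain a (k + 2)).map_mem_O (X 1)
  convert h1 using 1
  rw [chain_succ, blow_X1, chain_succ]
  have e := (c.chain a k).u_ne_zero
  simp only [Nat.succ_ne_zero, if_false, map_zero, zero_mul, sub_zero]
  rw [blow_X1, blow_X0]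
  field_simp

end Coord

end Pool.Agent.MP_ad39f2_ag.H14
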