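import Pool.Agent.MP_ad39f2_ag.H14.General

open MvPolynomial IsLocalRing

namespace Pool.Agent.MP_ad39f2_ag.H14

/-- Polynomials in two variables. -/
abbrev P2 : Type := MvPolynomial (Fin 2) ℂ

/-- A system of local coordinates: an injective map from the polynomial ring in two variables. -/
structure Coord where
  φ : P2 →ₐ[ℂ] K
  inj : Function.Injective φ

namespace Coord

variable (c : Coord)

lemma map_ne_zero {g : P2} (hg : g ≠ 0) : c.φ g ≠ 0 := fun h =>
  hg (c.inj (by rw [h, map_zero]))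

lemma map_ne_zero_of_cc {g : P2} (hg : constantCoeff g ≠ 0) : c.φ g ≠ 0 :=
  c.map_ne_zero (by rintro rfl; simp at hg)

/-- The subring of quotients whose denominator does not vanish at the origin. -/
def sub : Subring K where
  carrier := {z | ∃ f g : P2, constantCoeff g ≠ 0 ∧ z = c.φ f / c.φ g}
  mul_mem' := by
    rintro _ _ ⟨f, g, hg, rfl⟩ ⟨f', g', hg', rfl⟩
    exact ⟨f * f', g * g', by simp [hg, hg'], by simp [div_mul_div_comm]⟩
  one_mem' := ⟨1, 1, by simp, by simp⟩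
  add_mem' := by
    rintro _ _ ⟨f, g, hg, rfl⟩ ⟨f', g', hg', rfl⟩
    refine ⟨f * g' + g * f', g * g', by simp [hg, hg'], ?_⟩
    rw [div_add_div _ _ (c.map_ne_zero_of_cc hg) (c.map_ne_zero_of_cc hg')]
    simp
  zero_mem' := ⟨0, 1, by simp, by simp⟩
  neg_mem' := by
    rintro _ ⟨f, g, hg, rfl⟩
    exact ⟨-f, g, hg, by rw [map_neg]; exact (neg_div _ _).symm⟩

lemma mem_sub {z : K} : z ∈ c.sub ↔ ∃ f g : P2, constantCoeff g ≠ 0 ∧ z = c.φ f / c.φ g :=
  Iff.rfl

lemma inv_mem_sub {f g : P2} (hf : constantCoeff f ≠ 0) : (c.φ f / c.φ g)⁻¹ ∈ c.sub :=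
  ⟨g, f, hf, by rw [inv_div]⟩

instance : IsLocalRing c.sub := by
  refine IsLocalRing.of_isUnit_or_isUnit_one_sub_self ?_
  rintro ⟨_, f, g, hg, rfl⟩
  have hg0 := c.map_ne_zero_of_cc hg
  by_cases hf : constantCoeff f = 0
  · right
    have h1 : constantCoeff (g - f) ≠ 0 := by simpa [hf] using hg
    refine IsUnit.of_mul_eq_one ⟨_, c.inv_mem_sub (g := g) h1⟩ (Subtype.ext ?_)
    have h2 := c.map_ne_zero_of_cc h1
    change (1 - c.φ f / c.φ g) * (c.φ (g - f) / c.φ g)⁻¹ = 1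
    rw [map_sub] at h2 ⊢
    field_simp
  · left
    refine IsUnit.of_mul_eq_one ⟨_, c.inv_mem_sub (g := g) hf⟩ (Subtype.ext ?_)
    have h2 := c.map_ne_zero_of_cc hf
    change (c.φ f / c.φ g) * (c.φ f / c.φ g)⁻¹ = 1
    field_simp

/-- The local ring at the origin of the coordinate system. -/
def O : LocalSubring K := LocalSubring.mk c.sub

lemma mem_O {z : K} :
    z ∈ c.O.toSubring ↔ ∃ f g : P2, constantCoeff g ≠ 0 ∧ z = c.φ f / c.φ g := Iff.rfl

lemma map_mem_O (f : P2) : c.φ f ∈ c.O.toSubring := ⟨f, 1, by simp, by simp⟩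

lemma div_mem_maxSet_iff {f g : P2} (hg : constantCoeff g ≠ 0) :
    c.φ f / c.φ g ∈ maxSet c.O ↔ constantCoeff f = 0 := by
  rw [mem_maxSet_iff]
  constructor
  · rintro ⟨-, h⟩
    by_contra hf
    rcases h with h | h
    · exact div_ne_zero (c.map_ne_zero_of_cc hf) (c.map_ne_zero_of_cc hg) h
    · exact h (c.inv_mem_sub hf)
  · intro hf
    refine ⟨⟨f, g, hg, rfl⟩, ?_⟩
    by_cases h0 : f = 0
    · left
      simp [h0]
    right
    rintro ⟨f', g', hg', h⟩
    rw [inv_div, div_eq_div_iff (c.map_ne_zero h0) (c.map_ne_zero_of_cc hg')] at h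
    have h1 : g * g' = f' * f := c.inj (by simpa using h)
    have h2 := congrArg constantCoeff h1
    simp only [map_mul, hf, mul_zero, mul_eq_zero] at h2
    tauto

lemma mem_maxSet {z : K} : z ∈ maxSet c.O ↔
    ∃ f g : P2, constantCoeff f = 0 ∧ constantCoeff g ≠ 0 ∧ z = c.φ f / c.φ g := by
  constructor
  · intro hz
    obtain ⟨f, g, hg, rfl⟩ := c.mem_O.1 (maxSet_subset _ hz)
    exact ⟨f, g, (c.div_mem_maxSet_iff hg).1 hz, hg, rfl⟩
  · rintro ⟨f, g, hf, hg, rfl⟩
    exact (c.div_mem_maxSet_iff hg).2 hf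

lemma map_mem_maxSet {f : P2} (hf : constantCoeff f = 0) : c.φ f ∈ maxSet c.O :=
  c.mem_maxSet.2 ⟨f, 1, hf, by simp, by simp⟩

lemma mem_idealOfVars_iff {f : P2} : f ∈ idealOfVars (Fin 2) ℂ ↔ constantCoeff f = 0 := by
  rw [← pow_one (idealOfVars (Fin 2) ℂ), mem_pow_idealOfVars_iff']
  constructor
  · intro h
    exact h 0 (by simp)
  · intro h x hx
    have : x = 0 := (Finsupp.degree_eq_zero_iff x).1 (by simpa using hx)
    rw [this]
    exact h

/-- Membership in a power of the maximal ideal. -/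
lemma mem_pow_iff (n : ℕ) (a : c.O.toSubring) : a ∈ maximalIdeal c.O.toSubring ^ n ↔
    ∃ f ∈ idealOfVars (Fin 2) ℂ ^ n, ∃ g : P2, constantCoeff g ≠ 0 ∧ (a : K) = c.φ f / c.φ g := by
  constructor
  · intro ha
    induction n generalizing a with
    | zero =>
      obtain ⟨f, g, hg, h⟩ := c.mem_O.1 a.2
      exact ⟨f, by simp, g, hg, h⟩
    | succ n ih =>
      rw [pow_succ] at ha
      refine Submodule.mul_induction_on ha ?_ ?_
      · intro x hx y hy
        obtain ⟨f, hf, g, hg, h⟩ := ih x hx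
        obtain ⟨f', g', hf', hg', h'⟩ := c.mem_maxSet.1 (coe_mem_maxSet.2 hy)
        refine ⟨f * f', ?_, g * g', by simp [hg, hg'], ?_⟩
        · rw [pow_succ]
          exact Ideal.mul_mem_mul hf (mem_idealOfVars_iff.2 hf')
        · simp [h, h', div_mul_div_comm]
      · rintro x y ⟨f, hf, g, hg, h⟩ ⟨f', hf', g', hg', h'⟩
        refine ⟨f * g' + g * f', add_mem (Ideal.mul_mem_right _ _ hf)
          (Ideal.mul_mem_left _ _ hf'), g * g', by simp [hg, hg'], ?_⟩
        rw [Subring.coe_add, h, h',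
          div_add_div _ _ (c.map_ne_zero_of_cc hg) (c.map_ne_zero_of_cc hg')]
        simp
  · rintro ⟨f, hf, g, hg, h⟩
    let ψ : P2 →+* c.O.toSubring := (c.φ : P2 →+* K).codRestrict _ c.map_mem_O
    have h1 : (idealOfVars (Fin 2) ℂ).map ψ ≤ maximalIdeal c.O.toSubring := by
      rw [Ideal.map_le_iff_le_comap]
      intro x hx
      exact coe_mem_maxSet.1 (c.map_mem_maxSet (mem_idealOfVars_iff.1 hx))
    have h2 : ψ f ∈ maximalIdeal c.O.toSubring ^ n := by
      apply Ideal.pow_right_mono h1 n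
      rw [← Ideal.map_pow]
      exact Ideal.mem_map_of_mem _ hf
    have h3 : c.φ 1 / c.φ g ∈ c.O.toSubring := ⟨1, g, hg, rfl⟩
    have h4 : a = ψ f * ⟨_, h3⟩ := by
      apply Subtype.ext
      rw [h]
      change _ = c.φ f * (c.φ 1 / c.φ g)
      rw [map_one, mul_one_div]
    rw [h4]
    exact Ideal.mul_mem_right _ _ h2

lemma mem_pow_iff_order (n : ℕ) (f : P2) : f ∈ idealOfVars (Fin 2) ℂ ^ n ↔
    (n : ℕ∞) ≤ (f : MvPowerSeries (Fin 2) ℂ).order := by
  rw [mem_pow_idealOfVars_iff']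
  constructor
  · intro h
    apply MvPowerSeries.nat_le_order
    intro d hd
    simpa using h d hd
  · intro h d hd
    have := MvPowerSeries.coeff_of_lt_order (f := (f : MvPowerSeries (Fin 2) ℂ)) (d := d)
      (lt_of_lt_of_le (by exact_mod_cast hd) h)
    simpa using this

/-- `(v - a u) / u ^ 2` has negative order. -/
lemma notMem_ordRing (a : ℂ) :
    (c.φ (X 1 - C a * X 0)) / c.φ (X 0) ^ 2 ∉ ordRing c.O := by
  rintro ⟨n, x, y, hx, hy, h⟩
  obtain ⟨f, hf, g, hg, hx'⟩ := (c.mem_pow_iff n x).1 hx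
  obtain ⟨f', g', hg', hy'⟩ := c.mem_O.1 y.2
  have hf' : f' ∉ idealOfVars (Fin 2) ℂ ^ (n + 1) := fun h' =>
    hy ((c.mem_pow_iff _ y).2 ⟨f', h', g', hg', hy'⟩)
  have hf0 : f' ≠ 0 := by
    rintro rfl
    exact hf' (zero_mem _)
  have e1 := c.map_ne_zero hf0
  have e2 := c.map_ne_zero_of_cc hg
  have e3 := c.map_ne_zero_of_cc hg'
  have e4 : c.φ (X 0) ≠ 0 := c.map_ne_zero (X_ne_zero _)
  rw [hx', hy'] at h
  have h1 : (X 1 - C a * X 0) * (g * f') = X 0 ^ 2 * f * g' := by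
    apply c.inj
    simp only [map_mul, map_pow]
    field_simp at h
    rw [map_sub, map_mul] at h ⊢
    linear_combination h
  have h2 : (X 1 - C a * X 0) * (g * f') ∈ idealOfVars (Fin 2) ℂ ^ (n + 2) := by
    rw [h1, add_comm n 2, pow_add]
    refine Ideal.mul_mem_right _ _ (Ideal.mul_mem_mul (Ideal.pow_mem_pow ?_ 2) hf)
    exact mem_idealOfVars_iff.2 (by simp)
  rw [mem_pow_iff_order] at h2 hf'
  rw [MvPolynomial.coe_mul, MvPolynomial.coe_mul, MvPowerSeries.order_mul,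
    MvPowerSeries.order_mul] at h2
  have h3 : ((X 1 - C a * X 0 : P2) : MvPowerSeries (Fin 2) ℂ).order ≤ 1 := by
    have := MvPowerSeries.order_le (f := ((X 1 - C a * X 0 : P2) : MvPowerSeries (Fin 2) ℂ))
      (d := Finsupp.single 1 1) (by
        rw [MvPolynomial.coeff_coe]
        simp [coeff_X, Finsupp.single_eq_single_iff])
    simpa using this
  have h4 : (g : MvPowerSeries (Fin 2) ℂ).order ≤ 0 := by
    have := MvPowerSeries.order_le (f := (g : MvPowerSeries (Fin 2) ℂ)) (d := 0) (by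
      rw [MvPolynomial.coeff_coe]
      exact hg)
    simpa using this
  have h5 : (f' : MvPowerSeries (Fin 2) ℂ).order ≤ n := by
    rw [not_le] at hf'
    exact Order.le_of_lt_add_one (by exact_mod_cast hf')
  have h6 := h2.trans (add_le_add h3 (add_le_add h4 h5))
  have h7 : n + 2 ≤ 1 + (0 + n) := by exact_mod_cast h6
  omega

/-- `v / u` is not regular at the origin. -/
lemma div_notMem : c.φ (X 1) / c.φ (X 0) ∉ c.O.toSubring := by
  rintro ⟨f, g, hg, h⟩
  rw [div_eq_div_iff (c.map_ne_zero (X_ne_zero _)) (c.map_ne_zero_of_cc hg)] at h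
  have h1 : X 1 * g = f * X 0 := c.inj (by simpa using h)
  have h2 := congrArg (coeff (Finsupp.single 1 1)) h1
  rw [coeff_X_mul', coeff_mul_X'] at h2
  simp at h2
  exact hg h2

end Coord

end Pool.Agent.MP_ad39f2_ag.H14
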