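import Mathlib

/-!
Infinitely near points of the complex projective plane, in the language of Zariski, Abhyankar
and Lipman: a point is identified with its local ring inside the field of rational functions.
-/

open MvPolynomial IsLocalRing

namespace Pool.Agent.MP_ad39f2_ag.H14

/-- The field of fractions of `ℂ[X₀, X₁, X₂]`; the function field of the plane is its part of
degree zero. -/
abbrev K : Type := FractionRing (MvPolynomial (Fin 3) ℂ)

/-- A polynomial viewed as a rational function. -/
noncomputable abbrev toK (F : MvPolynomial (Fin 3) ℂ) : K :=
  algebraMap (MvPolynomial (Fin 3) ℂ) K F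

/-- `R` is the local ring of the projective plane at a point `[p₀ : p₁ : p₂]`: the quotients
`F / G` of forms of equal degree with `G(p) ≠ 0`. -/
def IsPlanePoint (R : LocalSubring K) : Prop :=
  ∃ p : Fin 3 → ℂ, p ≠ 0 ∧ ∀ z : K, z ∈ R.toSubring ↔
    ∃ (n : ℕ) (F G : MvPolynomial (Fin 3) ℂ), F.IsHomogeneous n ∧ G.IsHomogeneous n ∧
      eval p G ≠ 0 ∧ z = toK F / toK G

/-- The maximal ideal of `R`, as a set of rational functions. -/
def maxSet {L : Type} [Field L] (R : LocalSubring L) : Set L :=
  {z | ∃ a ∈ maximalIdeal R.toSubring, (a : L) = z}

/-- The coordinate ring `R[m / x]` of the affine chart given by `x` of the blow-up of `R` at its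
maximal ideal `m`. -/
def chart {L : Type} [Field L] (R : LocalSubring L) (x : L) : Subring L :=
  Subring.closure ((R.toSubring : Set L) ∪ {z | ∃ a ∈ maxSet R, z = a / x})

/-- `S` is the local ring of a closed point on the exceptional curve of the blow-up of `R`
(a quadratic transform of `R`): the localization of a chart `R[m / x]` at a maximal ideal
containing `m`. -/
def IsQT {L : Type} [Field L] (R S : LocalSubring L) : Prop :=
  ∃ x ∈ maxSet R, x ≠ 0 ∧ ∃ (n : Ideal (chart R x)) (_ : n.IsMaximal),
    (∀ a : chart R x, (a : L) ∈ maxSet R → a ∈ n) ∧ S = LocalSubring.ofPrime (chart R x) n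

/-- `S` is equal to or infinitely near to `R`. -/
def Prec {L : Type} [Field L] (R S : LocalSubring L) : Prop := Relation.ReflTransGen IsQT R S

/-- The valuation ring of the order function of `R`, that is, the local ring at the generic point
of the exceptional curve of the blow-up of `R`. -/
def ordRing {L : Type} [Field L] (R : LocalSubring L) : Set L :=
  {z | ∃ (n : ℕ) (a b : R.toSubring), a ∈ maximalIdeal R.toSubring ^ n ∧
    b ∉ maximalIdeal R.toSubring ^ (n + 1) ∧ z = (a : L) / (b : L)}

/-- `S` is proximate to `R`: it is infinitely near to `R` and lies on the exceptional curve of `R`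
or on a strict transform of it. -/
def Prox {L : Type} [Field L] (S R : LocalSubring L) : Prop :=
  S ≠ R ∧ Prec R S ∧ (S.toSubring : Set L) ⊆ ordRing R

/-- A configuration of infinitely near points of the plane, indexed without repetition by `ι`:
every point is a point of the plane or lies on the exceptional curve of another point of the
configuration, and the configuration is closed under precedence. -/
def IsConfig {ι : Type} (C : ι → LocalSubring K) : Prop :=
  Function.Injective C ∧
  (∀ i, IsPlanePoint (C i) ∨ ∃ j, j ≠ i ∧ IsQT (C j) (C i)) ∧
  (∀ i R, (∃ P, IsPlanePoint P ∧ Prec P R) → Prec R (C i) → ∃ j, C j = R)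

/-- Two configurations with the same precedence relation and the same proximity relation. -/
def SameProx {L : Type} [Field L] {ι : Type} (C C' : ι → LocalSubring L) : Prop :=
  ∀ i j, (Prec (C i) (C j) ↔ Prec (C' i) (C' j)) ∧ (Prox (C i) (C j) ↔ Prox (C' i) (C' j))

open Classical in
/-- The proximity inequalities. -/
def Consistent {L : Type} [Field L] {ι : Type} [Fintype ι] (C : ι → LocalSubring L)
    (r : ι → ℕ) : Prop :=
  ∀ i, ∑ j with Prox (C j) (C i), r j ≤ r i

open Classical in
/-- The ideal of the local ring at the point `i` that is the product of the `r j`-th powers of the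
extended maximal ideals of the points `j` of the configuration that precede or equal `i`. -/
noncomputable def weightIdeal {L : Type} [Field L] {ι : Type} [Fintype ι]
    (C : ι → LocalSubring L) (r : ι → ℕ) (i : ι) : Ideal (C i).toSubring :=
  ∏ j with Prec (C j) (C i),
    (Ideal.span {a : (C i).toSubring | (a : L) ∈ maxSet (C j)}) ^ r j

/-- The global sections of `H(d)`: the forms `F` of degree `d` whose local equation `F / Xₖ ^ d`
(for a coordinate `Xₖ` that does not vanish at the underlying point of the plane) lies in
`weightIdeal C r i` at each point `i` of the configuration. -/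
def sections {ι : Type} [Fintype ι] (C : ι → LocalSubring K) (r : ι → ℕ) (d : ℕ) :
    Set (MvPolynomial (Fin 3) ℂ) :=
  {F | F.IsHomogeneous d ∧ ∀ (i : ι) (k : Fin 3),
    (∀ l : Fin 3, toK (X l) / toK (X k) ∈ (C i).toSubring) →
      ∃ a ∈ weightIdeal C r i, (a : K) = toK F / toK (X k) ^ d}

end Pool.Agent.MP_ad39f2_ag.H14
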