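import Pool.Agent.MP_ad39f2_ag.H14.Defs

open MvPolynomial IsLocalRing

namespace Pool.Agent.MP_ad39f2_ag.H14

/-- Domination in elementary terms. -/
def Dom (R S : LocalSubring K) : Prop :=
  R.toSubring ≤ S.toSubring ∧ maxSet R ⊆ maxSet S

lemma Dom.refl (R : LocalSubring K) : Dom R R := ⟨le_rfl, subset_rfl⟩

lemma Dom.trans {R S T : LocalSubring K} (h : Dom R S) (h' : Dom S T) : Dom R T :=
  ⟨h.1.trans h'.1, h.2.trans h'.2⟩

lemma maxSet_subset (R : LocalSubring K) : maxSet R ⊆ R.toSubring := by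
  rintro z ⟨a, -, rfl⟩
  exact a.2

lemma mem_maxSet_iff {R : LocalSubring K} {z : K} :
    z ∈ maxSet R ↔ z ∈ R.toSubring ∧ (z = 0 ∨ z⁻¹ ∉ R.toSubring) := by
  constructor
  · rintro ⟨a, ha, rfl⟩
    refine ⟨a.2, ?_⟩
    by_cases h0 : (a : K) = 0
    · exact Or.inl h0
    · refine Or.inr fun hinv => ?_
      rw [mem_maximalIdeal, mem_nonunits_iff] at ha
      exact ha (IsUnit.of_mul_eq_one (⟨_, hinv⟩ : R.toSubring)
        (Subtype.ext (mul_inv_cancel₀ h0)))
  · rintro ⟨hz, h⟩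
    refine ⟨⟨z, hz⟩, ?_, rfl⟩
    rw [mem_maximalIdeal, mem_nonunits_iff]
    intro hu
    obtain ⟨b, hb⟩ := hu.exists_right_inv
    have hb' : z * (b : K) = 1 := congrArg Subtype.val hb
    have hz0 : z ≠ 0 := left_ne_zero_of_mul_eq_one hb'
    rcases h with h | h
    · exact hz0 h
    · apply h
      rw [← eq_inv_of_mul_eq_one_right hb']
      exact b.2

lemma coe_mem_maxSet {R : LocalSubring K} {a : R.toSubring} :
    (a : K) ∈ maxSet R ↔ a ∈ maximalIdeal R.toSubring := by
  constructor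
  · rintro ⟨b, hb, hab⟩
    rwa [← Subtype.ext hab]
  · intro h
    exact ⟨a, h, rfl⟩

lemma one_notMem_maxSet (R : LocalSubring K) : (1 : K) ∉ maxSet R := by
  rw [mem_maxSet_iff]
  simp

lemma maxSet_mul {R : LocalSubring K} {a b : K} (ha : a ∈ maxSet R) (hb : b ∈ R.toSubring) :
    a * b ∈ maxSet R := by
  obtain ⟨a, ha, rfl⟩ := ha
  exact ⟨a * ⟨b, hb⟩, Ideal.mul_mem_right _ _ ha, rfl⟩

lemma maxSet_sub {R : LocalSubring K} {a b : K} (ha : a ∈ maxSet R) (hb : b ∈ maxSet R) :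
    a - b ∈ maxSet R := by
  obtain ⟨a, ha, rfl⟩ := ha
  obtain ⟨b, hb, rfl⟩ := hb
  exact ⟨a - b, Ideal.sub_mem _ ha hb, rfl⟩

lemma inv_mem_of_notMem_maxSet {R : LocalSubring K} {z : K} (hz : z ∈ R.toSubring)
    (h : z ∉ maxSet R) : z ≠ 0 ∧ z⁻¹ ∈ R.toSubring := by
  rw [mem_maxSet_iff] at h
  push Not at h
  exact h hz

/-- If `R` is dominated by `T`, an element of `R` that is invertible in `T` is invertible in `R`. -/
lemma Dom.inv_mem {R T : LocalSubring K} (h : Dom R T) {z : K} (hz : z ∈ R.toSubring)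
    (hinv : z⁻¹ ∈ T.toSubring) : z⁻¹ ∈ R.toSubring := by
  by_cases h0 : z = 0
  · simp [h0]
  by_contra hn
  have h1 : z ∈ maxSet R := mem_maxSet_iff.2 ⟨hz, Or.inr hn⟩
  have h2 := mem_maxSet_iff.1 (h.2 h1)
  rcases h2.2 with h3 | h3
  · exact h0 h3
  · exact h3 hinv

lemma mem_ofPrime {A : Subring K} {P : Ideal A} [P.IsPrime] {z : K} :
    z ∈ (LocalSubring.ofPrime A P).toSubring ↔ ∃ a b : A, b ∉ P ∧ z = (a : K) / (b : K) := by
  constructor
  · intro hz
    obtain ⟨a, s, hs⟩ := IsLocalization.exists_mk'_eq P.primeCompl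
      (⟨z, hz⟩ : (LocalSubring.ofPrime A P).toSubring)
    refine ⟨a, s, s.2, ?_⟩
    have h1 := IsLocalization.mk'_spec (LocalSubring.ofPrime A P).toSubring a s
    rw [hs] at h1
    have h2 : z * ((s : A) : K) = (a : K) := congrArg Subtype.val h1
    have h3 : ((s : A) : K) ≠ 0 := by
      intro h
      apply s.2
      have : (s : A) = 0 := Subtype.ext h
      rw [this]
      exact P.zero_mem
    rw [eq_div_iff h3, h2]
  · rintro ⟨a, b, hb, rfl⟩
    have hu : IsUnit (algebraMap A (LocalSubring.ofPrime A P).toSubring b) :=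
      (IsLocalization.AtPrime.isUnit_to_map_iff _ P b).2 hb
    obtain ⟨c, hc⟩ := hu.exists_right_inv
    have hc' : (b : K) * (c : K) = 1 := congrArg Subtype.val hc
    rw [div_eq_mul_inv, ← eq_inv_of_mul_eq_one_right hc']
    exact Subring.mul_mem _ (LocalSubring.le_ofPrime A P a.2) c.2

lemma mem_maxSet_ofPrime {A : Subring K} {P : Ideal A} [P.IsPrime] (a : A) :
    (a : K) ∈ maxSet (LocalSubring.ofPrime A P) ↔ a ∈ P := by
  rw [← IsLocalization.AtPrime.to_map_mem_maximal_iff (LocalSubring.ofPrime A P).toSubring P a]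
  exact coe_mem_maxSet (a := algebraMap A (LocalSubring.ofPrime A P).toSubring a)

lemma le_chart (R : LocalSubring K) (x : K) : R.toSubring ≤ chart R x :=
  fun _ hz => Subring.subset_closure (Or.inl hz)

lemma div_mem_chart {R : LocalSubring K} (x : K) {a : K} (ha : a ∈ maxSet R) :
    a / x ∈ chart R x :=
  Subring.subset_closure (Or.inr ⟨a, ha, rfl⟩)

lemma IsQT.dom {R S : LocalSubring K} (h : IsQT R S) : Dom R S := by
  obtain ⟨x, -, -, n, hn, hm, rfl⟩ := h
  refine ⟨(le_chart R x).trans (LocalSubring.le_ofPrime _ _), fun z hz => ?_⟩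
  have hz' : z ∈ chart R x := le_chart R x (maxSet_subset R hz)
  exact (mem_maxSet_ofPrime (⟨z, hz'⟩ : chart R x)).2 (hm _ hz)

lemma Prec.dom {R S : LocalSubring K} (h : Prec R S) : Dom R S := by
  induction h with
  | refl => exact Dom.refl _
  | tail _ h2 ih => exact ih.trans h2.dom

lemma Dom.antisymm {R S : LocalSubring K} (h : Dom R S) (h' : Dom S R) : R = S :=
  LocalSubring.toSubring_injective (le_antisymm h.1 h'.1)

/-- Two quadratic transforms of the same ring dominated by one local ring are contained in each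
other. -/
lemma IsQT.le_of_dom {R S S' T : LocalSubring K} (h : IsQT R S) (h' : IsQT R S')
    (hS : Dom S T) (hS' : Dom S' T) : S'.toSubring ≤ S.toSubring := by
  obtain ⟨x, hx, hx0, n, hn, hm, rfl⟩ := h
  obtain ⟨x', hx', hx0', n', hn', hm', rfl⟩ := h'
  have h1 : x' / x ∈ (LocalSubring.ofPrime _ n).toSubring :=
    LocalSubring.le_ofPrime _ _ (div_mem_chart x hx')
  have h2 : x / x' ∈ T.toSubring := hS'.1 (LocalSubring.le_ofPrime _ _ (div_mem_chart x' hx))
  have h3 : x / x' ∈ (LocalSubring.ofPrime _ n).toSubring := by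
    have := hS.inv_mem h1 (by rwa [inv_div])
    rwa [inv_div] at this
  have h4 : chart R x' ≤ (LocalSubring.ofPrime _ n).toSubring := by
    refine Subring.closure_le.2 ?_
    rintro z (hz | ⟨a, ha, rfl⟩)
    · exact LocalSubring.le_ofPrime _ _ (le_chart R x hz)
    · have : a / x' = a / x * (x / x') := by field_simp
      rw [this]
      exact Subring.mul_mem _ (LocalSubring.le_ofPrime _ _ (div_mem_chart x ha)) h3
  intro z hz
  obtain ⟨a, b, hb, rfl⟩ := mem_ofPrime.1 hz
  have hb1 : (b : K) ∉ maxSet (LocalSubring.ofPrime _ n') := fun h =>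
    hb ((mem_maxSet_ofPrime b).1 h)
  have hb2 := (inv_mem_of_notMem_maxSet (LocalSubring.le_ofPrime _ _ b.2) hb1).2
  rw [div_eq_mul_inv]
  exact Subring.mul_mem _ (h4 a.2) (hS.inv_mem (h4 b.2) (hS'.1 hb2))

lemma IsQT.eq_of_dom {R S S' T : LocalSubring K} (h : IsQT R S) (h' : IsQT R S')
    (hS : Dom S T) (hS' : Dom S' T) : S = S' :=
  LocalSubring.toSubring_injective
    (le_antisymm (h'.le_of_dom h hS' hS) (h.le_of_dom h' hS hS'))

/-- Along a chain of quadratic transforms `Q 0, …, Q k`, every ring that follows `Q 0` and precedes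
`Q k` is one of the `Q m`. -/
lemma eq_of_chain (Q : ℕ → LocalSubring K) (hQ : ∀ m, IsQT (Q m) (Q (m + 1))) (k : ℕ)
    {R : LocalSubring K} (h0 : Prec (Q 0) R) (hR : Prec R (Q k)) : ∃ m ≤ k, Q m = R := by
  have hmono : ∀ a b, a ≤ b → Dom (Q a) (Q b) := by
    intro a b hab
    induction hab with
    | refl => exact Dom.refl _
    | step _ ih => exact ih.trans (hQ _).dom
  induction h0 with
  | refl => exact ⟨0, Nat.zero_le _, rfl⟩
  | @tail R' R _ h2 ih =>
    obtain ⟨m, hm, rfl⟩ := ih (Relation.ReflTransGen.head h2 hR)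
    rcases hm.eq_or_lt with rfl | hlt
    · exact ⟨m, le_rfl, h2.dom.antisymm hR.dom⟩
    · exact ⟨m + 1, hlt, (hQ m).eq_of_dom h2 (hmono _ _ hlt) hR.dom⟩

lemma toK_injective : Function.Injective toK :=
  IsFractionRing.injective (MvPolynomial (Fin 3) ℂ) K

lemma toK_X_ne_zero (k : Fin 3) : toK (X k) ≠ 0 := by
  intro h
  have : (X k : MvPolynomial (Fin 3) ℂ) = 0 := toK_injective (by rw [h]; exact (map_zero _).symm)
  exact X_ne_zero k this

/-- A linear form vanishing at the point, divided by a coordinate that does not vanish there, lies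
in the maximal ideal. -/
lemma linear_div_mem_maxSet {R : LocalSubring K} {p : Fin 3 → ℂ}
    (hR : ∀ z : K, z ∈ R.toSubring ↔
      ∃ (n : ℕ) (F G : MvPolynomial (Fin 3) ℂ), F.IsHomogeneous n ∧ G.IsHomogeneous n ∧
        eval p G ≠ 0 ∧ z = toK F / toK G)
    {L : MvPolynomial (Fin 3) ℂ} (hL : L.IsHomogeneous 1) (hLp : eval p L = 0)
    {k : Fin 3} (hk : p k ≠ 0) : toK L / toK (X k) ∈ maxSet R := by
  rw [mem_maxSet_iff]
  refine ⟨(hR _).2 ⟨1, L, X k, hL, isHomogeneous_X _ _, by simpa using hk, rfl⟩, ?_⟩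
  by_cases h0 : L = 0
  · left
    simp [h0]
  right
  intro h
  obtain ⟨n, F, G, -, -, hG, hFG⟩ := (hR _).1 h
  have hL0 : toK L ≠ 0 := fun h => h0 (toK_injective (by simpa using h))
  have hG0 : toK G ≠ 0 := fun h => hG (by
    have : G = 0 := toK_injective (by simpa using h)
    simp [this])
  rw [inv_div, div_eq_div_iff hL0 hG0] at hFG
  have h1 : X k * G = F * L := toK_injective (by simpa [toK] using hFG)
  have h2 := congrArg (eval p) h1
  simp only [map_mul, eval_X, hLp, mul_zero, mul_eq_zero] at h2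
  tauto

lemma const_mem_of_isPlanePoint {R : LocalSubring K} (h : IsPlanePoint R) (c : ℂ) :
    toK (C c) ∈ R.toSubring := by
  obtain ⟨p, -, hR⟩ := h
  exact (hR _).2 ⟨0, C c, 1, isHomogeneous_C _ _, isHomogeneous_one _ _, by simp, by simp⟩

end Pool.Agent.MP_ad39f2_ag.H14
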