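import Pool.Agent.MP_ad39f2_ag.H14.Plane

open MvPolynomial IsLocalRing

namespace Pool.Agent.MP_ad39f2_ag.H14

/-- Two points of the plane, each with six chains of seven infinitely near points. -/
abbrev Idx : Type := Fin 2 × Option (Fin 6 × Fin 7)

def depth (i : Idx) : ℕ := i.2.elim 0 fun x => x.2.1 + 1

def branch (i : Idx) : Fin 6 := i.2.elim 0 fun x => x.1

def wt (i : Idx) : ℕ := i.2.elim 12 fun _ => 2

/-- The node of depth `m` on branch `b` over the base point `t`. -/
def node (t : Fin 2) (b : Fin 6) (m : ℕ) : Idx :=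
  (t, if h : 0 < m ∧ m < 8 then some (b, ⟨m - 1, by omega⟩) else none)

noncomputable def pt (i : Idx) : LocalSubring K :=
  ((base i.1).chain ((branch i : ℕ) : ℂ) (depth i)).O

def Anc (j i : Idx) : Prop :=
  j.1 = i.1 ∧ depth j ≤ depth i ∧ (depth j ≠ 0 → branch j = branch i)

instance (j i : Idx) : Decidable (Anc j i) := by unfold Anc; infer_instance

lemma depth_le (i : Idx) : depth i ≤ 7 := by
  revert i
  decide +kernel

lemma anc_antisymm : ∀ i j : Idx, Anc i j → Anc j i → i = j := by decide +kernel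

lemma sum_child : ∀ i : Idx,
    ∑ j with (Anc i j ∧ j ≠ i ∧ depth j < depth i + 2), wt j ≤ wt i := by decide +kernel

lemma sum_anc : ∀ i : Idx, ∑ j with Anc j i, wt j ≤ 27 := by decide +kernel

lemma sum_choose : ∑ i : Idx, (wt i + 1).choose 2 = 408 := by decide +kernel

lemma two_le_wt : ∀ i : Idx, 2 ≤ wt i := by decide +kernel

lemma anc_root : ∀ (t : Fin 2) (j : Idx), Anc j (t, none) → j = (t, none) := by decide +kernel

lemma root_anc : ∀ (i j : Idx), Anc j i → Anc (i.1, none) j := by decide +kernel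

lemma three_largest (s : Finset Idx) (hs : s.card ≤ 3) : ∑ i ∈ s, wt i < 27 := by
  have h1 : ∀ i : Idx, wt i = 2 + if i.2 = none then 10 else 0 := by decide +kernel
  have h2 : ∑ i ∈ s, (if i.2 = none then 10 else 0) ≤
      ∑ i : Idx, (if i.2 = none then 10 else 0) :=
    Finset.sum_le_sum_of_subset (Finset.subset_univ s)
  have h3 : ∑ i : Idx, (if i.2 = none then 10 else 0) = 20 := by decide +kernel
  rw [Finset.sum_congr rfl fun i _ => h1 i, Finset.sum_add_distrib, Finset.sum_const,
    smul_eq_mul]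
  omega

lemma pt_node (t : Fin 2) (b : Fin 6) {m : ℕ} (hm : m ≤ 7) :
    pt (node t b m) = ((base t).chain ((b : ℕ) : ℂ) m).O := by
  by_cases h0 : m = 0
  · subst h0
    rfl
  · have h : 0 < m ∧ m < 8 := by omega
    have h1 : depth (node t b m) = m := by
      simp only [node, depth, dif_pos h, Option.elim]
      omega
    have h2 : branch (node t b m) = b := by simp only [node, branch, dif_pos h, Option.elim]
    rw [pt, h1, h2]
    rfl

lemma prec_base_pt (i : Idx) : Prec (base i.1).O (pt i) :=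
  (base i.1).prec_chain _ (Nat.zero_le _)

lemma prec_of_anc {j i : Idx} (h : Anc j i) : Prec (pt j) (pt i) := by
  obtain ⟨h1, h2, h3⟩ := h
  by_cases h0 : depth j = 0
  · have : pt j = (base i.1).O := by
      rw [pt, h0, h1]
      rfl
    rw [this]
    exact prec_base_pt i
  · rw [pt, pt, h1, h3 h0]
    exact (base i.1).prec_chain _ h2

lemma anc_of_dom {j i : Idx} (h : Dom (pt j) (pt i)) : Anc j i := by
  have h1 : j.1 = i.1 := base_eq_of_dom ((prec_base_pt j).dom.trans h) (prec_base_pt i).dom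
  by_cases h0 : depth j = 0
  · exact ⟨h1, by omega, fun h' => absurd h0 h'⟩
  have hj : Dom ((base i.1).blow ((branch j : ℕ) : ℂ)).O (pt i) := by
    refine Dom.trans ?_ h
    rw [pt, h1]
    exact ((base i.1).prec_chain _ (k := 1) (by omega)).dom
  have hi0 : depth i ≠ 0 := by
    intro hi
    refine (base i.1).not_blow_le ((branch j : ℕ) : ℂ) ?_
    have := hj.1
    rwa [pt, hi] at this
  have hi : Dom ((base i.1).blow ((branch i : ℕ) : ℂ)).O (pt i) :=
    ((base i.1).prec_chain _ (k := 1) (by omega)).dom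
  have hb : branch j = branch i := by
    have := (base i.1).eq_of_dom_blow hj hi
    exact Fin.ext (by exact_mod_cast this)
  refine ⟨h1, ?_, fun _ => hb⟩
  apply (base i.1).le_of_chain_le ((branch i : ℕ) : ℂ)
  have := h.1
  rwa [pt, pt, h1, hb] at this

lemma prec_iff {j i : Idx} : Prec (pt j) (pt i) ↔ Anc j i :=
  ⟨fun h => anc_of_dom h.dom, prec_of_anc⟩

lemma pt_injective : Function.Injective pt := fun i j h =>
  anc_antisymm i j (anc_of_dom (h ▸ Dom.refl _)) (anc_of_dom (h ▸ Dom.refl _))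

lemma isConfig_pt : IsConfig pt := by
  refine ⟨pt_injective, fun i => ?_, ?_⟩
  · by_cases h0 : depth i = 0
    · left
      rw [pt, h0]
      exact isPlanePoint_base _
    · right
      obtain ⟨m, hm⟩ : ∃ m, depth i = m + 1 := Nat.exists_eq_succ_of_ne_zero h0
      have hm7 : m ≤ 7 := by have := depth_le i; omega
      have hq : IsQT (pt (node i.1 (branch i) m)) (pt i) := by
        rw [pt_node _ _ hm7, pt, hm]
        exact (base i.1).isQT_chain _ _
      refine ⟨node i.1 (branch i) m, fun h => ?_, hq⟩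
      have h1 : (pt i).toSubring ≤ (pt (node i.1 (branch i) m)).toSubring := by rw [h]
      rw [pt_node _ _ hm7, pt, hm] at h1
      have := (base i.1).le_of_chain_le _ h1
      omega
  · rintro i R ⟨P, hP, hPR⟩ hR
    have h1 : (base i.1).O = P := eq_base_of_dom hP (hPR.dom.trans hR.dom) (prec_base_pt i).dom
    subst h1
    obtain ⟨m, hm, rfl⟩ := eq_of_chain (fun m => ((base i.1).chain ((branch i : ℕ) : ℂ) m).O)
      ((base i.1).isQT_chain _) (depth i) hPR hR
    exact ⟨node i.1 (branch i) m, pt_node _ _ (hm.trans (depth_le i))⟩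

lemma consistent_pt : Consistent pt wt := by
  classical
  intro i
  refine le_trans (Finset.sum_le_sum_of_subset ?_) (sum_child i)
  intro j hj
  simp only [Finset.mem_filter, Finset.mem_univ, true_and] at hj ⊢
  obtain ⟨hne, hprec, hsub⟩ := hj
  have ha := prec_iff.1 hprec
  refine ⟨ha, fun h => hne (by rw [h]), ?_⟩
  by_contra hlt
  refine (base j.1).not_subset_ordRing ((branch j : ℕ) : ℂ) (k := depth i) (l := depth j)
    (by omega) ?_
  have : pt i = ((base j.1).chain ((branch j : ℕ) : ℂ) (depth i)).O := by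
    by_cases h0 : depth i = 0
    · rw [pt, h0, ha.1]
      rfl
    · rw [pt, ha.1, ha.2.2 h0]
  rwa [this] at hsub

/-- A nonzero linear form through two given points. -/
lemma exists_linear (p q : Fin 3 → ℂ) : ∃ L : MvPolynomial (Fin 3) ℂ, L ≠ 0 ∧
    L.IsHomogeneous 1 ∧ eval p L = 0 ∧ eval q L = 0 := by
  let f : (Fin 3 → ℂ) →ₗ[ℂ] (Fin 2 → ℂ) := Matrix.toLin' (Matrix.of ![p, q])
  obtain ⟨a, ha, ha0⟩ := Submodule.exists_mem_ne_zero_of_ne_bot
    (LinearMap.ker_ne_bot_of_finrank_lt (f := f) (by simp))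
  have h0 := congrFun (LinearMap.mem_ker.1 ha) 0
  have h1 := congrFun (LinearMap.mem_ker.1 ha) 1
  simp [f, Matrix.mulVec, dotProduct] at h0 h1
  refine ⟨∑ k, C (a k) * X k, fun h => ha0 ?_,
    IsHomogeneous.sum _ _ _ fun k _ => isHomogeneous_C_mul_X _ _, ?_, ?_⟩
  · funext k
    have := congrArg (eval (Pi.single k 1)) h
    simpa [Pi.single_apply] using this
  · simpa [mul_comm] using h0
  · simpa [mul_comm] using h1

theorem sections_pos (C' : Idx → LocalSubring K) (hC : IsConfig C') (hS : SameProx pt C') :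
    ∃ W : Submodule ℂ (MvPolynomial (Fin 3) ℂ),
      (W : Set (MvPolynomial (Fin 3) ℂ)) = sections C' wt 27 ∧ 0 < Module.finrank ℂ W := by
  classical
  have hprec : ∀ j i, Prec (C' j) (C' i) ↔ Anc j i := fun j i => (hS j i).1.symm.trans prec_iff
  have hroot : ∀ t : Fin 2, IsPlanePoint (C' (t, none)) := by
    intro t
    rcases hC.2.1 (t, none) with h | ⟨j, hj, h⟩
    · exact h
    · exact absurd (anc_root t j ((hprec _ _).1 (Relation.ReflTransGen.single h))) hj
  have hdom : ∀ i j, Anc j i → Dom (C' (i.1, none)) (C' j) := fun i j h =>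
    ((hprec _ _).2 (root_anc i j h)).dom
  have hself : ∀ i : Idx, Anc i i := fun i => ⟨rfl, le_rfl, fun _ => rfl⟩
  let W : Submodule ℂ (MvPolynomial (Fin 3) ℂ) :=
    { carrier := sections C' wt 27
      zero_mem' := ⟨isHomogeneous_zero _ _ _, fun i k _ => ⟨0, zero_mem _, by simp⟩⟩
      add_mem' := by
        rintro F G ⟨hF, hF'⟩ ⟨hG, hG'⟩
        refine ⟨hF.add hG, fun i k hk => ?_⟩
        obtain ⟨a, ha, ha'⟩ := hF' i k hk
        obtain ⟨b, hb, hb'⟩ := hG' i k hk
        refine ⟨a + b, add_mem ha hb, ?_⟩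
        rw [Subring.coe_add, ha', hb', ← add_div]
        simp [toK]
      smul_mem' := by
        rintro c F ⟨hF, hF'⟩
        rw [smul_eq_C_mul]
        refine ⟨hF.C_mul c, fun i k hk => ?_⟩
        obtain ⟨a, ha, ha'⟩ := hF' i k hk
        have hc : toK (C c) ∈ (C' i).toSubring :=
          (hdom i i (hself i)).1 (const_mem_of_isPlanePoint (hroot i.1) c)
        refine ⟨⟨_, hc⟩ * a, Ideal.mul_mem_left _ _ ha, ?_⟩
        rw [Subring.coe_mul, ha']
        simp only [toK, map_mul, mul_div_assoc] }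
  refine ⟨W, rfl, ?_⟩
  have hfin : Module.Finite ℂ W := by
    have h1 : W ≤ homogeneousSubmodule (Fin 3) ℂ 27 := fun F hF => hF.1
    have h2 : Module.Finite ℂ (homogeneousSubmodule (Fin 3) ℂ 27) :=
      Module.Finite.iff_fg.2 (homogeneousSubmodule_fg _ _ _)
    exact Submodule.finiteDimensional_of_le h1
  choose p hp0 hp using id hroot
  obtain ⟨L, hL0, hL, hL1, hL2⟩ := exists_linear (p 0) (p 1)
  have hLp : ∀ t, eval (p t) L = 0 := by
    intro t
    fin_cases t
    · exact hL1
    · exact hL2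
  have hmem : L ^ 27 ∈ W := by
    refine ⟨by simpa using hL.pow 27, fun i k hk => ?_⟩
    obtain ⟨k₀, hk₀⟩ := Function.ne_iff.1 (hp0 i.1)
    have h1 : toK L / toK (X k₀) ∈ maxSet (C' (i.1, none)) :=
      linear_div_mem_maxSet (hp i.1) hL (hLp _) hk₀
    have h2 : toK L / toK (X k₀) ∈ (C' i).toSubring := (hdom i i (hself i)).1 (maxSet_subset _ h1)
    let y : (C' i).toSubring := ⟨_, h2⟩ * ⟨_, hk k₀⟩
    have hy : (y : K) = toK L / toK (X k) := by
      have := toK_X_ne_zero k₀
      change toK L / toK (X k₀) * (toK (X k₀) / toK (X k)) = _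
      field_simp
    refine ⟨y ^ 27, ?_, ?_⟩
    · have h3 : ∑ j with Prec (C' j) (C' i), wt j ≤ 27 := by
        convert sum_anc i using 3
        exact hprec _ _
      obtain ⟨e, he⟩ := Nat.exists_eq_add_of_le h3
      rw [he, pow_add, ← Finset.prod_pow_eq_pow_sum]
      refine Ideal.mul_mem_right _ _ (Ideal.prod_mem_prod fun j hj => ?_)
      refine Ideal.pow_mem_pow (Ideal.mul_mem_right _ _ (Ideal.subset_span ?_)) _
      exact (hdom i j ((hprec _ _).1 (Finset.mem_filter.1 hj).2)).2 h1
    · rw [Subring.coe_pow, hy, div_pow]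
      simp [toK]
  rw [Module.finrank_pos_iff_exists_ne_zero]
  refine ⟨⟨L ^ 27, hmem⟩, fun h => pow_ne_zero 27 hL0 ?_⟩
  exact (Submodule.mk_eq_zero _ _).1 h

end Pool.Agent.MP_ad39f2_ag.H14
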