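import Pool.Agent.MP_ad39f2_ag.H14.Blow

open MvPolynomial IsLocalRing

namespace Pool.Agent.MP_ad39f2_ag.H14

lemma aeval_mul_of_isHomogeneous {A : Type} [CommRing A] [Algebra ℂ A]
    {F : MvPolynomial (Fin 3) ℂ} {n : ℕ} (hF : F.IsHomogeneous n) (s : A) (x : Fin 3 → A) :
    aeval (fun i => s * x i) F = s ^ n * aeval x F := by
  conv_lhs => rw [F.as_sum]
  conv_rhs => rw [F.as_sum]
  rw [map_sum, map_sum, Finset.mul_sum]
  refine Finset.sum_congr rfl fun d hd => ?_
  rw [aeval_monomial, aeval_monomial, hF.degree_eq_sum_deg_support hd]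
  simp only [Finsupp.prod, mul_pow, Finset.prod_mul_distrib, Finset.prod_pow_eq_pow_sum]
  ring

/-- The coordinate that does not vanish at the `t`-th base point. -/
def tau (t : Fin 2) : Fin 3 := ![0, 1] t

/-- The other one among the first two coordinates. -/
def tau' (t : Fin 2) : Fin 3 := ![1, 0] t

/-- Affine coordinates at the `t`-th base point. -/
noncomputable def planeMap (t : Fin 2) : P2 →ₐ[ℂ] K :=
  aeval ![toK (X (tau' t)) / toK (X (tau t)), toK (X 2) / toK (X (tau t))]

/-- Dehomogenization at the `t`-th base point. -/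
noncomputable def dehom (t : Fin 2) : MvPolynomial (Fin 3) ℂ →ₐ[ℂ] P2 :=
  aeval fun l => if l = tau t then 1 else if l = 2 then X 1 else X 0

lemma toK_C (b : ℂ) : toK (C b) = algebraMap ℂ K b :=
  (IsScalarTower.algebraMap_apply ℂ (MvPolynomial (Fin 3) ℂ) K b).symm

lemma aeval_toK (F : MvPolynomial (Fin 3) ℂ) : aeval (fun l => toK (X l)) F = toK F := by
  have : (aeval (fun l => toK (X l)) : MvPolynomial (Fin 3) ℂ →ₐ[ℂ] K) =
      IsScalarTower.toAlgHom ℂ (MvPolynomial (Fin 3) ℂ) K := by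
    apply MvPolynomial.algHom_ext
    intro i
    simp
  exact congr($this F)

lemma planeMap_dehom (t : Fin 2) {F : MvPolynomial (Fin 3) ℂ} {n : ℕ} (hF : F.IsHomogeneous n) :
    planeMap t (dehom t F) = toK F / toK (X (tau t)) ^ n := by
  have h1 : (planeMap t).comp (dehom t) =
      aeval fun l => (toK (X (tau t)))⁻¹ * toK (X l) := by
    apply MvPolynomial.algHom_ext
    intro i
    fin_cases t <;> fin_cases i <;> simp [planeMap, dehom, tau, tau', div_eq_inv_mul]
  have h2 : planeMap t (dehom t F) = aeval (fun l => (toK (X (tau t)))⁻¹ * toK (X l)) F :=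
    congr($h1 F)
  rw [h2, aeval_mul_of_isHomogeneous hF, aeval_toK, inv_pow, div_eq_inv_mul]

lemma cc_dehom (t : Fin 2) (F : MvPolynomial (Fin 3) ℂ) :
    constantCoeff (dehom t F) = eval (Pi.single (tau t) 1) F := by
  induction F using MvPolynomial.induction_on with
  | C b => simp [dehom]
  | add f g hf hg => simp [hf, hg]
  | mul_X f i hf =>
    rw [map_mul, map_mul, map_mul, hf]
    congr 1
    fin_cases t <;> fin_cases i <;> simp [dehom, tau]

lemma dehom_X_tau (t : Fin 2) : dehom t (X (tau t)) = 1 := by simp [dehom]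

lemma exists_dehom_eq (t : Fin 2) (f : P2) :
    ∃ (n : ℕ) (F : MvPolynomial (Fin 3) ℂ), F.IsHomogeneous n ∧ dehom t F = f := by
  induction f using MvPolynomial.induction_on with
  | C b => exact ⟨0, C b, isHomogeneous_C _ _, by simp [dehom]⟩
  | add f g hf hg =>
    obtain ⟨n, F, hF, rfl⟩ := hf
    obtain ⟨m, G, hG, rfl⟩ := hg
    refine ⟨n + m, F * X (tau t) ^ m + X (tau t) ^ n * G,
      (hF.mul (isHomogeneous_X_pow _ _)).add ((isHomogeneous_X_pow _ _).mul hG), ?_⟩
    simp [dehom_X_tau]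
  | mul_X f i hf =>
    obtain ⟨n, F, hF, rfl⟩ := hf
    refine ⟨n + 1, F * X (![tau' t, 2] i), hF.mul (isHomogeneous_X _ _), ?_⟩
    rw [map_mul]
    congr 1
    fin_cases t <;> fin_cases i <;> simp [dehom, tau, tau']

/-- The coordinate system at the `t`-th base point. -/
noncomputable def base (t : Fin 2) : Coord where
  φ := planeMap t
  inj := by
    rw [injective_iff_map_eq_zero]
    intro f hf
    obtain ⟨n, F, hF, rfl⟩ := exists_dehom_eq t f
    rw [planeMap_dehom t hF, div_eq_zero_iff] at hf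
    have h1 : toK F = 0 := hf.resolve_right (pow_ne_zero _ (toK_X_ne_zero _))
    have h2 : F = 0 := toK_injective (by rw [h1]; exact (map_zero _).symm)
    rw [h2, map_zero]

lemma mem_base (t : Fin 2) (z : K) : z ∈ (base t).O.toSubring ↔
    ∃ (n : ℕ) (F G : MvPolynomial (Fin 3) ℂ), F.IsHomogeneous n ∧ G.IsHomogeneous n ∧
      eval (Pi.single (tau t) 1) G ≠ 0 ∧ z = toK F / toK G := by
  have e := toK_X_ne_zero (tau t)
  constructor
  · rintro ⟨f, g, hg, rfl⟩
    obtain ⟨n, F, hF, rfl⟩ := exists_dehom_eq t f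
    obtain ⟨m, G, hG, rfl⟩ := exists_dehom_eq t g
    rw [cc_dehom] at hg
    refine ⟨n + m, F * X (tau t) ^ m, X (tau t) ^ n * G, hF.mul (isHomogeneous_X_pow _ _),
      (isHomogeneous_X_pow _ _).mul hG, by simpa using hg, ?_⟩
    change planeMap t _ / planeMap t _ = _
    rw [planeMap_dehom t hF, planeMap_dehom t hG]
    simp only [toK, map_mul, map_pow] at e ⊢
    field_simp
  · rintro ⟨n, F, G, hF, hG, hG0, rfl⟩
    refine ⟨dehom t F, dehom t G, by rwa [cc_dehom], ?_⟩
    change _ = planeMap t _ / planeMap t _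
    rw [planeMap_dehom t hF, planeMap_dehom t hG]
    field_simp

lemma isPlanePoint_base (t : Fin 2) : IsPlanePoint (base t).O :=
  ⟨Pi.single (tau t) 1, by simp, mem_base t⟩

lemma not_dom_of_inv {R S T : LocalSubring K} (hR : Dom R T) (hS : Dom S T) {z : K}
    (hz0 : z ≠ 0) (h1 : z ∈ maxSet R) (h2 : z⁻¹ ∈ S.toSubring) : False := by
  apply one_notMem_maxSet T
  rw [← mul_inv_cancel₀ hz0]
  exact maxSet_mul (hR.2 h1) (hS.1 h2)

/-- A point of the plane that shares a dominating ring with a base point is that base point. -/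
lemma eq_base_of_dom {t : Fin 2} {P T : LocalSubring K} (hP : IsPlanePoint P) (h : Dom P T)
    (h' : Dom (base t).O T) : (base t).O = P := by
  obtain ⟨p, hp, hP⟩ := hP
  have hk : ∀ k, k ≠ tau t → p k = 0 := by
    intro k hk
    by_contra hpk
    refine not_dom_of_inv h' h (z := toK (X k) / toK (X (tau t)))
      (div_ne_zero (toK_X_ne_zero _) (toK_X_ne_zero _))
      (linear_div_mem_maxSet (mem_base t) (isHomogeneous_X _ _) (by simp [hk]) (by simp)) ?_
    rw [inv_div]
    exact (hP _).2 ⟨1, X (tau t), X k, isHomogeneous_X _ _, isHomogeneous_X _ _,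
      by simpa using hpk, rfl⟩
  have hpt : p (tau t) ≠ 0 := by
    intro h0
    apply hp
    funext k
    by_cases hkt : k = tau t
    · rw [hkt, h0]; rfl
    · exact hk k hkt
  have hev : ∀ {n : ℕ} {G : MvPolynomial (Fin 3) ℂ}, G.IsHomogeneous n →
      (eval (Pi.single (tau t) 1) G ≠ 0 ↔ eval p G ≠ 0) := by
    intro n G hG
    have h1 : p = fun i => p (tau t) * (Pi.single (tau t) (1 : ℂ) : Fin 3 → ℂ) i := by
      funext k
      by_cases hkt : k = tau t
      · simp [hkt]
      · simp [hkt, hk k hkt]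
    have h2 := aeval_mul_of_isHomogeneous hG (p (tau t)) (Pi.single (tau t) (1 : ℂ))
    rw [← h1] at h2
    change eval p G = _ * eval _ G at h2
    rw [h2]
    simp [hpt]
  apply LocalSubring.toSubring_injective
  ext z
  rw [mem_base, hP]
  constructor
  · rintro ⟨n, F, G, hF, hG, h0, rfl⟩
    exact ⟨n, F, G, hF, hG, (hev hG).1 h0, rfl⟩
  · rintro ⟨n, F, G, hF, hG, h0, rfl⟩
    exact ⟨n, F, G, hF, hG, (hev hG).2 h0, rfl⟩

lemma base_eq_of_dom {t t' : Fin 2} {T : LocalSubring K} (h : Dom (base t).O T)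
    (h' : Dom (base t').O T) : t = t' := by
  by_contra htt
  have hne : tau t' ≠ tau t := by
    fin_cases t <;> fin_cases t' <;> simp_all [tau]
  refine not_dom_of_inv h h' (z := toK (X (tau t')) / toK (X (tau t)))
    (div_ne_zero (toK_X_ne_zero _) (toK_X_ne_zero _))
    (linear_div_mem_maxSet (mem_base t) (isHomogeneous_X _ _) (by simp [hne]) (by simp)) ?_
  rw [inv_div]
  exact (mem_base t' _).2 ⟨1, X (tau t), X (tau t'), isHomogeneous_X _ _, isHomogeneous_X _ _,
    by simp, rfl⟩

end Pool.Agent.MP_ad39f2_ag.H14
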